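import Pool.Agent.MWGR.StmtsE
import Pool.Agent.MWGR.StmtsF

/-!
# Block MWGR: rows JPE and SUR (assembly)
-/

set_option autoImplicit false

namespace Pool.Agent.MWGR.H20

open Pool.Agent.Helper14_MV Pool.Agent.Helper2_MV Pool.Agent.MVO Pool.Agent.MWL Pool.Agent.MWS
open Pool.Agent.MWH

theorem jpe (h0 : Ja0Stmt) (h1 : Ja1Stmt) (h2 : Ja2Stmt) (hz : JzeStmt) (hr : JrhStmt)
    (hp : JrpStmt) (hk : JkaStmt) (hd : JdmStmt) (hs : JesStmt) (he : JepStmt) : JpeStmt := by
  intro n β hR e hG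
  cases e with
  | al0 => exact h0 n β hR.toBG
  | al1 => exact h1 n β hR.toBG
  | al2 => exact h2 n β hR.toBG
  | ze => exact hz n β hR.toBG
  | rh => exact hr n β hR.toBG
  | rh' => exact hp n β hR.toBG
  | ka => exact hk n β hR.toBG
  | dm m =>
    obtain ⟨p, e, hpp, hdv⟩ := hG
    exact hd n β hR.toBG m p e hpp hdv
  | es c => exact hs n β hR c hG.2
  | ep k c => exact he n β hR hG.2.1 k c hG.1 hG.2.2

theorem sur (hP : PrinStmt) (hE : EwrStmt) : SurStmt :=
  fun n β hR => hP n β hR.toBG (hE n β hR)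

end Pool.Agent.MWGR.H20
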