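import Pool.Agent.MWGR.StmtsE

/-!
# Block MWGR, row RLS: the list of the rigid letters
-/

set_option autoImplicit false

namespace Pool.Agent.MWGR.H20

open Pool.Agent.Helper14_MV Pool.Agent.Helper2_MV Pool.Agent.MVO Pool.Agent.MWL Pool.Agent.MWS
open Pool.Agent.MWH

theorem rls : RlsStmt := by
  classical
  intro k i a b B
  refine ⟨(B i).dedup.filter
    (fun x => decide (2 ≤ (B i).count x ∧ Rg k B i x a ∧ Rg k B i x b)),
    (List.nodup_dedup _).filter _, fun x => ?_⟩
  rw [List.mem_filter, List.mem_dedup, decide_eq_true_iff]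
  constructor
  · exact fun h => h.2
  · intro h
    refine ⟨?_, h⟩
    have : 0 < (B i).count x := by omega
    exact List.count_pos_iff.1 this

end Pool.Agent.MWGR.H20
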