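import Pool.Agent.Helper10_MWGR.CSP
import Pool.Agent.Helper10_MWGR.NTZ
import Pool.Agent.Helper10_MWGR.SQL
import Pool.Agent.Helper13_MWGR.IMP
import Pool.Agent.Helper14_MWGR.DMA
import Pool.Agent.Helper15_MWGR.FAL
import Pool.Agent.Helper16_MWGR.DSG
import Pool.Agent.Helper16_MWGR.EVL
import Pool.Agent.Helper16_MWGR.MV3
import Pool.Agent.Helper19_MWGR.EXS
import Pool.Agent.Helper19_MWGR.LEL
import Pool.Agent.Helper19_MWGR.NFE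
import Pool.Agent.Helper19_MWGR.PBI
import Pool.Agent.Helper19_MWGR.RAP
import Pool.Agent.Helper19_MWGR.STW
import Pool.Agent.Helper1_MWGR.NTC
import Pool.Agent.Helper1_MWGR.RT2
import Pool.Agent.Helper20_MWGR.Fin
import Pool.Agent.Helper20_MWGR.RLS
import Pool.Agent.Helper21_MWGR.JDM
import Pool.Agent.Helper22_MWGR.TRE
import Pool.Agent.Helper23_MWGR.CRD
import Pool.Agent.Helper23_MWGR.NTS
import Pool.Agent.Helper23_MWGR.SPT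
import Pool.Agent.Helper24_MWGR.MSW
import Pool.Agent.Helper24_MWGR.TS1
import Pool.Agent.Helper25_MWGR.JZE
import Pool.Agent.Helper25_MWGR.ROK
import Pool.Agent.Helper25_MWGR.SWS
import Pool.Agent.Helper26_MWGR.RNE
import Pool.Agent.Helper27_MWGR.MV2
import Pool.Agent.Helper27_MWGR.ZAB
import Pool.Agent.Helper2_MWGR.CMB
import Pool.Agent.Helper30_MWGR.DAL
import Pool.Agent.Helper32_MWGR.EAT
import Pool.Agent.Helper33_MWGR.JES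
import Pool.Agent.Helper34_MWGR.FES
import Pool.Agent.Helper35_MWGR.RNM
import Pool.Agent.Helper36_MWGR.FRM
import Pool.Agent.Helper37_MWGR.TSF
import Pool.Agent.Helper39_MWGR.JA0
import Pool.Agent.Helper39_MWGR.JMB
import Pool.Agent.Helper39_MWGR.STB
import Pool.Agent.Helper3_MWGR.MNB
import Pool.Agent.Helper41_MWGR.NFR
import Pool.Agent.Helper41_MWGR.VER
import Pool.Agent.Helper43_MWGR.ARP
import Pool.Agent.Helper43_MWGR.INL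
import Pool.Agent.Helper43_MWGR.TS2
import Pool.Agent.Helper44_MWGR.EXL
import Pool.Agent.Helper44_MWGR.RT1
import Pool.Agent.Helper45_MWGR.NTR
import Pool.Agent.Helper46_MWGR.FRL
import Pool.Agent.Helper46_MWGR.RT3
import Pool.Agent.Helper47_MWGR.NFK
import Pool.Agent.Helper47_MWGR.NT2
import Pool.Agent.Helper48_MWGR.CompB
import Pool.Agent.Helper48_MWGR.Prin
import Pool.Agent.Helper48_MWHP.Comp
import Pool.Agent.Helper49_MWGR.NTP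
import Pool.Agent.Helper4_MWGR.NT0
import Pool.Agent.Helper50_MWGR.AEX
import Pool.Agent.Helper50_MWGR.KAD
import Pool.Agent.Helper50_MWGR.TS3
import Pool.Agent.Helper51_MWGR.MV1
import Pool.Agent.Helper52_MWGR.FRR
import Pool.Agent.Helper53_MWGR.EXG
import Pool.Agent.Helper53_MWGR.REL
import Pool.Agent.Helper58_MWGR.HHL
import Pool.Agent.Helper5_MWGP.GAP
import Pool.Agent.Helper5_MWGR.RowPRM
import Pool.Agent.Helper60_MWGR.JA2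
import Pool.Agent.Helper62_MWGR.JA1
import Pool.Agent.Helper63_MWGR.JMA
import Pool.Agent.Helper64_MWGR.KCR
import Pool.Agent.Helper64_MWGR.NFS
import Pool.Agent.Helper64_MWGR.NTA
import Pool.Agent.Helper66_MWGR.E0T
import Pool.Agent.Helper66_MWGR.NFL
import Pool.Agent.Helper69_MWGR.JKA
import Pool.Agent.Helper72_MWGR.DTT
import Pool.Agent.Helper73_MWGR.NFD
import Pool.Agent.Helper73_MWGR.TCR
import Pool.Agent.Helper75_MWGR.ECL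
import Pool.Agent.Helper76_MWGR.JRH
import Pool.Agent.Helper77_MWGR.CRM
import Pool.Agent.Helper77_MWGR.DCR
import Pool.Agent.Helper77_MWGR.EWR
import Pool.Agent.Helper7_MWGR.JRP
import Pool.Agent.Helper7_MWGR.NTD
import Pool.Agent.Helper7_MWGR.SW0
import Pool.Agent.Helper7_MWGR.SWP
import Pool.Agent.Helper80_MWGR.ECD
import Pool.Agent.Helper81_MWGR.BBL
import Pool.Agent.Helper81_MWGR.GCM
import Pool.Agent.Helper81_MWGR.NTQ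
import Pool.Agent.Helper81_MWGR.VEC
import Pool.Agent.Helper86_MWGR.FES
import Pool.Agent.Helper88_MWGR.NT1
import Pool.Agent.Helper89_MWGR.NTK
import Pool.Agent.Helper89_MWGR.SWE
import Pool.Agent.Helper89_MWGR.TLE
import Pool.Agent.Helper8_MWGR.ARD
import Pool.Agent.Helper8_MWGR.PSL
import Pool.Agent.Helper8_MWGR.RZE
import Pool.Agent.Helper92_MWGR.JEP
import Pool.Agent.Helper93_MWGR.EAL
import Pool.Agent.Helper94_MWGR.HLL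
import Pool.Agent.Helper95_MWGR.ALT
import Pool.Agent.Helper95_MWGR.RT4
import Pool.Agent.Helper97_MWGR.SWF
import Pool.Agent.Helper98_MWGR.RT5

/-!
# Block MWGR without hypotheses (generated)
-/

set_option autoImplicit false

namespace Pool.Agent.MWGR.Comp

theorem g_kad : Pool.Agent.MWGR.KadStmt :=
  Pool.Agent.MWGR.H50.kad

theorem g_hhl : Pool.Agent.MWGR.HhlStmt :=
  Pool.Agent.MWGR.H58.hhl Pool.Agent.MWGP.H5.gap

theorem g_prm : Pool.Agent.MWGR.PrmStmt :=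
  Pool.Agent.MWGR.H5.prm g_hhl

theorem g_inl : Pool.Agent.MWGR.InlStmt :=
  Pool.Agent.MWGR.H43.inl

theorem g_exl : Pool.Agent.MWGR.ExlStmt :=
  Pool.Agent.MWGR.H44.exl g_inl

theorem g_exs : Pool.Agent.MWGR.ExsStmt :=
  Pool.Agent.MWGR.H19.exs g_prm g_exl

theorem g_rap : Pool.Agent.MWGR.RapStmt :=
  Pool.Agent.MWGR.H19.rap

theorem g_rok : Pool.Agent.MWGR.RokStmt :=
  Pool.Agent.MWGR.H25.rok g_rap

theorem g_rt5 : Pool.Agent.MWGR.Rt5Stmt :=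
  Pool.Agent.MWGR.H98.rt5 g_prm g_exl g_exs g_rap g_rok

theorem g_mv2 : Pool.Agent.MWGR.Mv2Stmt :=
  Pool.Agent.MWGR.H27.mv2

theorem g_swf : Pool.Agent.MWGR.SwfStmt :=
  Pool.Agent.MWGR.H97.swf

theorem g_kcr : Pool.Agent.MWGR.KcrStmt :=
  Pool.Agent.MWGR.H64.kcr

theorem g_csp : Pool.Agent.MWGR.CspStmt :=
  Pool.Agent.MWGR.H10.csp g_kcr

theorem g_jma : Pool.Agent.MWGR.JmaStmt :=
  Pool.Agent.MWGR.H63.jma Pool.Agent.MWGP.H5.gap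

theorem g_jmb : Pool.Agent.MWGR.JmbStmt :=
  Pool.Agent.MWGR.H39.jmb Pool.Agent.MWGP.H5.gap

theorem g_sws : Pool.Agent.MWGR.SwsStmt :=
  Pool.Agent.MWGR.H25.sws Pool.Agent.MWGP.H5.gap g_jma g_jmb

theorem g_lel : Pool.Agent.MWGR.LelStmt :=
  Pool.Agent.MWGR.H19.lel Pool.Agent.MWGP.H5.gap

theorem g_rt3 : Pool.Agent.MWGR.Rt3Stmt :=
  Pool.Agent.MWGR.H46.rt3 g_prm g_exl g_exs g_rap g_rok

theorem g_rt2 : Pool.Agent.MWGR.Rt2Stmt :=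
  Pool.Agent.MWGR.H1.rt2 g_prm g_exl g_exs g_rap g_rok

theorem g_rt4 : Pool.Agent.MWGR.Rt4Stmt :=
  Pool.Agent.MWGR.H95.rt4 g_prm g_exs g_rap g_rok

theorem g_rt1 : Pool.Agent.MWGR.Rt1Stmt :=
  Pool.Agent.MWGR.H44.rt1 g_prm g_rap g_rok

theorem g_rze : Pool.Agent.MWGR.RzeStmt :=
  Pool.Agent.MWGR.H8.rze g_hhl g_prm g_inl g_exl g_exs g_rap g_rok

theorem g_bbl : Pool.Agent.MWGR.BblStmt :=
  Pool.Agent.MWGR.H81.bbl Pool.Agent.MWHP.Comp.c_MWS_Lbb Pool.Agent.MWHP.Comp.c_MWS_Bfx g_rze g_rt1 g_rt2 g_rt3 g_rt4 g_rt5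

theorem g_rnm : Pool.Agent.MWGR.RnmStmt :=
  Pool.Agent.MWGR.H35.rnm

theorem g_exg : Pool.Agent.MWGR.ExgStmt :=
  Pool.Agent.MWGR.H53.exg

theorem g_eal : Pool.Agent.MWGR.EalStmt :=
  Pool.Agent.MWGR.H93.eal Pool.Agent.MWGP.H5.gap g_exg

theorem g_crm : Pool.Agent.MWGR.CrmStmt :=
  Pool.Agent.MWGR.H77.crm g_exl

theorem g_crd : Pool.Agent.MWGR.CrdStmt :=
  Pool.Agent.MWGR.H23.crd g_crm g_exl

theorem g_sw0 : Pool.Agent.MWGR.Sw0Stmt :=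
  Pool.Agent.MWGR.H7.sw0 g_exs

theorem g_swe : Pool.Agent.MWGR.SweStmt :=
  Pool.Agent.MWGR.H89.swe

theorem g_mv3 : Pool.Agent.MWGR.Mv3Stmt :=
  Pool.Agent.MWGR.H16.mv3 g_crm

theorem g_rel : Pool.Agent.MWGR.RelStmt :=
  Pool.Agent.MWGR.H53.rel

theorem g_swp : Pool.Agent.MWGR.SwpStmt :=
  Pool.Agent.MWGR.H7.swp Pool.Agent.MWGP.H5.gap

theorem g_vec : Pool.Agent.MWGR.VecStmt :=
  Pool.Agent.MWGR.H81V.vec g_prm g_exs

theorem g_msw : Pool.Agent.MWGR.MswStmt :=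
  Pool.Agent.MWGR.H24.msw g_prm g_exs g_crm

theorem g_ver : Pool.Agent.MWGR.VerStmt :=
  Pool.Agent.MWGR.H41.ver g_prm g_exs

theorem g_nta : Pool.Agent.MWGR.NtaStmt :=
  Pool.Agent.MWGR.H64.nta g_exg

theorem g_ntd : Pool.Agent.MWGR.NtdStmt :=
  Pool.Agent.MWGR.H7D.ntd g_exg g_nta

theorem g_nt1 : Pool.Agent.MWGR.Nt1Stmt :=
  Pool.Agent.MWGR.H88.nt1 g_exg g_nta

theorem g_mv1 : Pool.Agent.MWGR.Mv1Stmt :=
  Pool.Agent.MWGR.H51.mv1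

theorem g_psl : Pool.Agent.MWGR.PslStmt :=
  Pool.Agent.MWGR.H8.psl

theorem g_pbi : Pool.Agent.MWGR.PbiStmt :=
  Pool.Agent.MWGR.H19.pbi

theorem g_spt : Pool.Agent.MWGR.SptStmt :=
  Pool.Agent.MWGR.H23.spt

theorem g_evl : Pool.Agent.MWGR.EvlStmt :=
  Pool.Agent.MWGR.H16.evl

theorem g_nt0 : Pool.Agent.MWGR.Nt0Stmt :=
  Pool.Agent.MWGR.H4.nt0 g_exg g_nta

theorem g_nt2 : Pool.Agent.MWGR.Nt2Stmt :=
  Pool.Agent.MWGR.H47.nt2 g_exg g_nta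

theorem g_nfr : Pool.Agent.MWGR.NfrStmt :=
  Pool.Agent.MWGR.H41.nfr g_psl g_pbi g_spt g_evl g_nt0 g_nt1 g_nt2

theorem g_sql : Pool.Agent.MWGR.SqlStmt :=
  Pool.Agent.MWGR.H10.sql

theorem g_cmb : Pool.Agent.MWGR.CmbStmt :=
  Pool.Agent.MWGR.H2.cmb

theorem g_frr : Pool.Agent.MWGR.FrrStmt :=
  Pool.Agent.MWGR.H52.frr g_csp g_mv1 g_sql g_cmb

theorem g_tre : Pool.Agent.MWGR.TreStmt :=
  Pool.Agent.MWGR.H22.tre g_nfr g_rel g_frr g_sql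

theorem g_ntz : Pool.Agent.MWGR.NtzStmt :=
  Pool.Agent.MWGR.H10.ntz g_exg g_nta

theorem g_ntr : Pool.Agent.MWGR.NtrStmt :=
  Pool.Agent.MWGR.H45.ntr g_exg g_nta

theorem g_ntp : Pool.Agent.MWGR.NtpStmt :=
  Pool.Agent.MWGR.H49.ntp g_exg g_nta

theorem g_nfl : Pool.Agent.MWGR.NflStmt :=
  Pool.Agent.MWGR.H66.nfl g_psl g_pbi g_spt g_evl g_ntz g_ntr g_ntp

theorem g_frl : Pool.Agent.MWGR.FrlStmt :=
  Pool.Agent.MWGR.H46.frl g_csp g_mv2 g_mv3 g_sql g_cmb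

theorem g_tle : Pool.Agent.MWGR.TleStmt :=
  Pool.Agent.MWGR.H89.tle g_nfl g_lel g_frl

theorem g_dma : Pool.Agent.MWGR.DmaStmt :=
  Pool.Agent.MWGR.H14.dma

theorem g_nfd : Pool.Agent.MWGR.NfdStmt :=
  Pool.Agent.MWGR.H73.nfd g_psl g_pbi g_spt g_evl g_ntd g_dma

theorem g_tcr : Pool.Agent.MWGR.TcrStmt :=
  Pool.Agent.MWGR.H73.tcr g_nfd g_dma g_crm g_crd g_frl

theorem g_dcr : Pool.Agent.MWGR.DcrStmt :=
  Pool.Agent.MWGR.H77.dcr g_exg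

theorem g_ntc : Pool.Agent.MWGR.NtcStmt :=
  Pool.Agent.MWGR.H1.ntc g_exg g_dcr g_ntd

theorem g_nts : Pool.Agent.MWGR.NtsStmt :=
  Pool.Agent.MWGR.H23.nts Pool.Agent.MWGP.H5.gap g_nta g_ntc

theorem g_ecl : Pool.Agent.MWGR.EclStmt :=
  Pool.Agent.MWGR.H75.ecl g_exg g_dcr

theorem g_ecd : Pool.Agent.MWGR.EcdStmt :=
  Pool.Agent.MWGR.H80.ecd g_dma g_ecl

theorem g_nfs : Pool.Agent.MWGR.NfsStmt :=
  Pool.Agent.MWGR.H64.nfs g_psl g_pbi g_evl g_nts g_ecd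

theorem g_gcm : Pool.Agent.MWGR.GcmStmt :=
  Pool.Agent.MWGR.H81G.gcm

theorem g_rls : Pool.Agent.MWGR.RlsStmt :=
  Pool.Agent.MWGR.H20.rls

theorem g_fes : Pool.Agent.MWGR.FesStmt :=
  Pool.Agent.MWGR.H86.fes

theorem g_ts1 : Pool.Agent.MWGR.Ts1Stmt :=
  Pool.Agent.MWGR.H24.ts1 g_nfs g_cmb g_gcm g_rls g_fes g_swf g_sws g_vec g_ver g_msw g_frl g_ecd

theorem g_ntk : Pool.Agent.MWGR.NtkStmt :=
  Pool.Agent.MWGR.H89.ntk g_nta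

theorem g_nfk : Pool.Agent.MWGR.NfkStmt :=
  Pool.Agent.MWGR.H47.nfk g_psl g_pbi g_spt g_evl g_ntk

theorem g_ts2 : Pool.Agent.MWGR.Ts2Stmt :=
  Pool.Agent.MWGR.H43.ts2 g_nfk g_kad g_sql g_sw0 g_msw g_crd g_dma

theorem g_ntq : Pool.Agent.MWGR.NtqStmt :=
  Pool.Agent.MWGR.H81Q.ntq g_exg g_ntc

theorem g_nfe : Pool.Agent.MWGR.NfeStmt :=
  Pool.Agent.MWGR.H19.nfe g_psl g_pbi g_spt g_evl g_ntq g_ecd

theorem g_alt : Pool.Agent.MWGR.AltStmt :=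
  Pool.Agent.MWGR.H95.alt

theorem g_ts3 : Pool.Agent.MWGR.Ts3Stmt :=
  Pool.Agent.MWGR.H50.ts3 g_nfs g_nfe g_nfd g_alt g_gcm g_rls g_fes g_swe g_swp g_vec g_ver g_msw g_frl g_ecd g_dma g_sql

theorem g_tsf : Pool.Agent.MWGR.TsfStmt :=
  Pool.Agent.MWGR.H37.tsf

theorem g_dtt : Pool.Agent.MWGR.DttStmt :=
  Pool.Agent.MWGR.H72.dtt g_bbl

theorem g_mnb : Pool.Agent.MWGR.MnbStmt :=
  Pool.Agent.MWGR.H3.mnb

theorem g_zab : Pool.Agent.MWGR.ZabStmt :=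
  Pool.Agent.MWGR.H27Z.zab Pool.Agent.MWHP.Comp.c_MWL_Ta1 Pool.Agent.MWHP.Comp.c_MWL_Ta2

theorem g_stb : Pool.Agent.MWGR.StbStmt :=
  Pool.Agent.MWGR.H39.stb Pool.Agent.MWHP.Comp.c_MWL_Trn Pool.Agent.MWHP.Comp.c_MWL_Key Pool.Agent.MWHP.Comp.c_MWL_Arr g_zab

theorem g_stw : Pool.Agent.MWGR.StwStmt :=
  Pool.Agent.MWGR.H19.stw Pool.Agent.MWHP.Comp.c_MVO_One Pool.Agent.MWHP.Comp.c_MWA_Ndq Pool.Agent.MWGR.B.lrg g_stb

theorem g_frm : Pool.Agent.MWGR.FrmStmt :=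
  Pool.Agent.MWGR.H36.frm

theorem g_dal : Pool.Agent.MWGR.DalStmt :=
  Pool.Agent.MWGR.H30.dal g_exg

theorem g_ja0 : Pool.Agent.MWGR.Ja0Stmt :=
  Pool.Agent.MWGR.H39.ja0 Pool.Agent.MWGR.B.jpig Pool.Agent.MWGR.H48P.bgb g_mnb g_stw g_frm g_eal g_dal g_nt0

theorem g_imp : Pool.Agent.MWGR.ImpStmt :=
  Pool.Agent.MWGR.H13.imp

theorem g_ja1 : Pool.Agent.MWGR.Ja1Stmt :=
  Pool.Agent.MWGR.H62.ja1 Pool.Agent.MWGR.B.jpig Pool.Agent.MWGR.H48P.bgb g_mnb g_stw g_frm g_imp g_eal g_dal g_nt1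

theorem g_fal : Pool.Agent.MWGR.FalStmt :=
  Pool.Agent.MWGR.H15.fal g_exg

theorem g_ja2 : Pool.Agent.MWGR.Ja2Stmt :=
  Pool.Agent.MWGR.H60.ja2 Pool.Agent.MWGR.B.jpig Pool.Agent.MWGR.H48P.bgb g_mnb g_stw g_frm g_imp g_eal g_dal g_fal g_nt2

theorem g_jze : Pool.Agent.MWGR.JzeStmt :=
  Pool.Agent.MWGR.H25.jze Pool.Agent.MWGR.B.jpig Pool.Agent.MWGR.H48P.bgb g_mnb g_stw g_frm g_eal g_dal g_ntz

theorem g_jrh : Pool.Agent.MWGR.JrhStmt :=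
  Pool.Agent.MWGR.H76.jrh Pool.Agent.MWGR.B.jpig Pool.Agent.MWGR.H48P.bgb g_mnb g_stw g_frm g_imp g_eal g_dal g_ntr

theorem g_jrp : Pool.Agent.MWGR.JrpStmt :=
  Pool.Agent.MWGR.H7.jrp Pool.Agent.MWGR.B.jpig Pool.Agent.MWGR.H48P.bgb g_mnb g_stw g_frm g_imp g_eal g_dal g_ntp

theorem g_jka : Pool.Agent.MWGR.JkaStmt :=
  Pool.Agent.MWGR.H69.jka Pool.Agent.MWGR.B.jpig Pool.Agent.MWGR.H48P.bgb g_mnb g_stw g_frm g_eal g_dal g_ntk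

theorem g_dsg : Pool.Agent.MWGR.DsgStmt :=
  Pool.Agent.MWGR.H16.dsg g_exg g_dcr

theorem g_ard : Pool.Agent.MWGR.ArdStmt :=
  Pool.Agent.MWGR.H8.ard

theorem g_jdm : Pool.Agent.MWGR.JdmStmt :=
  Pool.Agent.MWGR.H21.jdm Pool.Agent.MWGR.B.jpig Pool.Agent.MWGR.H48P.bgb g_mnb g_stw g_frm g_eal g_dal g_dsg g_ntd g_ard

theorem g_e0t : Pool.Agent.MWGR.E0tStmt :=
  Pool.Agent.MWGR.H66.e0t g_exg g_ecl

theorem g_arp : Pool.Agent.MWGR.ArpStmt :=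
  Pool.Agent.MWGR.H43.arp

theorem g_eat : Pool.Agent.MWGR.EatStmt :=
  Pool.Agent.MWGR.H32.eat Pool.Agent.MWGP.H5.gap g_exg

theorem g_hll : Pool.Agent.MWGR.HllStmt :=
  Pool.Agent.MWGR.H94.hll g_mnb g_ecl g_eat

theorem g_aex : Pool.Agent.MWGR.AexStmt :=
  Pool.Agent.MWGR.H50.aex g_mnb g_dsg g_ecl g_arp g_hll

theorem g_jes : Pool.Agent.MWGR.JesStmt :=
  Pool.Agent.MWGR.H33.jes Pool.Agent.MWGR.B.jpig Pool.Agent.MWGR.H48P.bgb g_mnb g_rnm g_stw g_frm g_eal g_dal g_e0t g_aex g_ntd g_nts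

theorem g_rne : Pool.Agent.MWGR.RneStmt :=
  Pool.Agent.MWGR.H26.rne

theorem g_fesf : Pool.Agent.MWGR.FesFStmt :=
  Pool.Agent.MWGR.H34.fes g_exg g_ecl

theorem g_jep : Pool.Agent.MWGR.JepStmt :=
  Pool.Agent.MWGR.H92.jep Pool.Agent.MWGR.B.jpig Pool.Agent.MWGR.H48P.bgb g_mnb g_rnm g_rne g_stw g_frm g_eal g_dal g_fal g_fesf g_e0t g_aex g_ntd g_ntq

theorem g_jpe : Pool.Agent.MWGR.JpeStmt :=
  Pool.Agent.MWGR.H20.jpe g_ja0 g_ja1 g_ja2 g_jze g_jrh g_jrp g_jka g_jdm g_jes g_jep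

theorem g_ewr : Pool.Agent.MWGR.EwrStmt :=
  Pool.Agent.MWGR.H77.ewr g_tre g_tle g_tcr g_ts1 g_ts2 g_ts3 g_tsf g_dtt g_jpe

theorem g_sur : Pool.Agent.MWGR.SurStmt :=
  Pool.Agent.MWGR.H20.sur Pool.Agent.MWGR.H48P.prin g_ewr

end Pool.Agent.MWGR.Comp
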